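import Mathlib
import Pool.Agent.TH194.BL.Loc

/-!
Project SU (helper353): the local count with coefficients (adaptation of `Pool.Agent.TH194.BL.Loc`).
-/

set_option autoImplicit false

namespace Pool.Agent.Y353.SU

open Finset
open Pool.Agent.TH194.BL (UU norm_mulChar norm_mulChar_le grp_aux sum_units_char sum_vec norm_jacobi_le)

section
variable {t : ℕ} [Fact t.Prime] {k : ℕ}

/-- at most `R` characters are trivial on all the monomials -/
theorem few_chars (R : ℕ) (x y : Fin k → ℕ)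
    (hr : ∀ r : ℕ, r ∣ t - 1 → (∀ i, (r : ℤ) ∣ (y i : ℤ) - x i) → r ≤ R)
    (χ : MulChar (ZMod t) ℂ) (S : Finset (MulChar (ZMod t) ℂ))
    (hS : ∀ ψ ∈ S, ∀ i, χ ^ x i * ψ ^ y i * (ψ⁻¹) ^ x i = 1) : S.card ≤ R := by
  classical
  rcases S.eq_empty_or_nonempty with rfl | ⟨ψ₀, h0⟩
  · simp
  have hcyc : IsCyclic (MulChar (ZMod t) ℂ) := by
    obtain ⟨e⟩ := MulChar.mulEquiv_units (ZMod t) ℂ
    exact isCyclic_of_surjective e.symm e.symm.surjective
  have hfin : Finite (MulChar (ZMod t) ℂ) := inferInstance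
  set H : Subgroup (MulChar (ZMod t) ℂ) :=
    { carrier := {φ | ∀ i, φ ^ ((y i : ℤ) - x i) = 1}
      mul_mem' := by
        intro a b ha hb i
        rw [mul_zpow, ha i, hb i, one_mul]
      one_mem' := by
        intro i
        rw [one_zpow]
      inv_mem' := by
        intro a ha i
        rw [inv_zpow, ha i, inv_one] } with hH
  obtain ⟨g, hg⟩ := IsCyclic.exists_generator (α := H)
  have hcard : Nat.card H = orderOf (g : MulChar (ZMod t) ℂ) := by
    rw [Subgroup.orderOf_coe]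
    exact (orderOf_eq_card_of_forall_mem_zpowers hg).symm
  have hle : Nat.card H ≤ R := by
    rw [hcard]
    apply hr
    · have := MulChar.orderOf_dvd_card_sub_one (F := ZMod t) (g : MulChar (ZMod t) ℂ)
      rwa [ZMod.card] at this
    · intro i
      rw [orderOf_dvd_iff_zpow_eq_one]
      exact g.2 i
  refine le_trans ?_ hle
  have hfH : Finite H := inferInstance
  have hinj : S.card ≤ (Set.ncard (H : Set (MulChar (ZMod t) ℂ))) := by
    rw [← Set.ncard_coe_finset]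
    apply Set.ncard_le_ncard_of_injOn (fun ψ => ψ * ψ₀⁻¹) _ _ (Set.toFinite _)
    · intro ψ hψ i
      exact grp_aux χ ψ ψ₀ (x i) (y i) (hS ψ hψ i) (hS ψ₀ h0 i)
    · intro a _ b _ hab
      exact mul_right_cancel hab
  refine hinj.trans (le_of_eq ?_)
  rfl

theorem key (R : ℕ) (x y : Fin k → ℕ)
    (hr : ∀ r : ℕ, r ∣ t - 1 → (∀ i, (r : ℤ) ∣ (y i : ℤ) - x i) → r ≤ R)
    (χ : MulChar (ZMod t) ℂ) (h : (ZMod t)ˣ → ℂ) (Bd : ℝ)
    (hB : ∀ ψ : MulChar (ZMod t) ℂ, ‖∑ v : (ZMod t)ˣ, ψ⁻¹ v * h v‖ ≤ Bd) :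
    ((t : ℝ) - 1) * ‖∑ A : Fin k → (ZMod t)ˣ, χ (UU x A) * h (UU y A * (UU x A)⁻¹)‖ ≤
      R * Bd * ((t : ℝ) - 1) ^ k := by
  classical
  have : Fintype (MulChar (ZMod t) ℂ) := Fintype.ofFinite _
  have ht1 : (0 : ℝ) < (t : ℝ) - 1 := by
    have : (2 : ℝ) ≤ t := by exact_mod_cast (Fact.out : t.Prime).two_le
    linarith
  have hB0 : 0 ≤ Bd := (norm_nonneg _).trans (hB 1)
  -- Fourier inversion
  have hinv : ∀ w : (ZMod t)ˣ, ((t : ℂ) - 1) * h w =
      ∑ ψ : MulChar (ZMod t) ℂ, ψ w * ∑ v : (ZMod t)ˣ, ψ⁻¹ v * h v := by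
    intro w
    simp_rw [mul_sum]
    rw [sum_comm]
    have h1 : ∀ v : (ZMod t)ˣ, ∑ ψ : MulChar (ZMod t) ℂ, ψ w * (ψ⁻¹ v * h v) =
        (if v = w then ((t : ℂ) - 1) else 0) * h v := by
      intro v
      have h2 := DirichletCharacter.sum_char_inv_mul_char_eq ℂ (v.isUnit) (w : ZMod t)
      have h3 : ∑ ψ : MulChar (ZMod t) ℂ, ψ w * (ψ⁻¹ v * h v) =
          (∑ ψ : MulChar (ZMod t) ℂ, ψ ((v : ZMod t))⁻¹ * ψ w) * h v := by
        rw [sum_mul]
        refine sum_congr rfl fun ψ _ => ?_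
        rw [MulChar.inv_apply']
        ring
      rw [h3]
      congr 1
      have h4 : (∑ ψ : MulChar (ZMod t) ℂ, ψ ((v : ZMod t))⁻¹ * ψ w) =
          if (v : ZMod t) = w then ((t.totient : ℕ) : ℂ) else 0 := by
        rw [← h2]
        exact Finset.sum_congr (by ext; simp) fun _ _ => rfl
      rw [h4, Nat.totient_prime (Fact.out : t.Prime), Nat.cast_sub (Fact.out : t.Prime).one_le]
      simp only [Units.ext_iff, Nat.cast_one]
    simp_rw [h1]
    rw [Finset.sum_eq_single w]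
    · rw [if_pos rfl]
    · intro b _ hb
      rw [if_neg hb, zero_mul]
    · intro hw
      exact absurd (mem_univ _) hw
  have e1 : ((t : ℂ) - 1) * ∑ A : Fin k → (ZMod t)ˣ, χ (UU x A) * h (UU y A * (UU x A)⁻¹) =
      ∑ ψ : MulChar (ZMod t) ℂ, (∑ v : (ZMod t)ˣ, ψ⁻¹ v * h v) *
        ∏ i, ∑ a : (ZMod t)ˣ, (χ ^ x i * ψ ^ y i * (ψ⁻¹) ^ x i) a := by
    rw [mul_sum]
    have h1 : ∀ A : Fin k → (ZMod t)ˣ, ((t : ℂ) - 1) * (χ (UU x A) * h (UU y A * (UU x A)⁻¹)) =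
        ∑ ψ : MulChar (ZMod t) ℂ, (∑ v : (ZMod t)ˣ, ψ⁻¹ v * h v) *
          (χ (UU x A) * (ψ (UU y A) * ψ⁻¹ (UU x A))) := by
      intro A
      rw [mul_left_comm, hinv, mul_sum]
      refine sum_congr rfl fun ψ _ => ?_
      rw [Units.val_mul, map_mul, Units.val_inv_eq_inv_val, ← MulChar.inv_apply']
      ring
    simp_rw [h1]
    rw [sum_comm]
    refine sum_congr rfl fun ψ _ => ?_
    rw [← mul_sum, sum_vec]
  have e2 : ∀ ψ : MulChar (ZMod t) ℂ,
      (∏ i, ∑ a : (ZMod t)ˣ, (χ ^ x i * ψ ^ y i * (ψ⁻¹) ^ x i) a) =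
        if (∀ i, χ ^ x i * ψ ^ y i * (ψ⁻¹) ^ x i = 1) then ((t : ℂ) - 1) ^ k else 0 := by
    intro ψ
    simp_rw [sum_units_char]
    split_ifs with h1
    · rw [prod_congr rfl (fun i _ => if_pos (h1 i))]
      simp
    · push Not at h1
      obtain ⟨i, hi⟩ := h1
      exact prod_eq_zero (mem_univ i) (if_neg hi)
  have e3 : ((t : ℝ) - 1) * ‖∑ A : Fin k → (ZMod t)ˣ, χ (UU x A) * h (UU y A * (UU x A)⁻¹)‖ =
      ‖((t : ℂ) - 1) * ∑ A : Fin k → (ZMod t)ˣ, χ (UU x A) * h (UU y A * (UU x A)⁻¹)‖ := by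
    rw [norm_mul]
    congr 1
    have : ((t : ℂ) - 1) = (((t : ℝ) - 1 : ℝ) : ℂ) := by push_cast; rfl
    rw [this, Complex.norm_real, Real.norm_of_nonneg ht1.le]
  rw [e3, e1]
  simp_rw [e2, mul_ite, mul_zero]
  rw [← sum_filter]
  refine (norm_sum_le _ _).trans ?_
  have h5 : ∀ ψ ∈ univ.filter (fun ψ : MulChar (ZMod t) ℂ =>
      ∀ i, χ ^ x i * ψ ^ y i * (ψ⁻¹) ^ x i = 1),
      ‖(∑ v : (ZMod t)ˣ, ψ⁻¹ v * h v) * ((t : ℂ) - 1) ^ k‖ ≤ Bd * ((t : ℝ) - 1) ^ k := by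
    intro ψ _
    rw [norm_mul, norm_pow]
    have : ((t : ℂ) - 1) = (((t : ℝ) - 1 : ℝ) : ℂ) := by push_cast; rfl
    rw [this, Complex.norm_real, Real.norm_of_nonneg ht1.le]
    exact mul_le_mul_of_nonneg_right (hB ψ) (by positivity)
  refine (sum_le_card_nsmul _ _ _ h5).trans ?_
  rw [nsmul_eq_mul]
  have h6 : ((univ.filter (fun ψ : MulChar (ZMod t) ℂ =>
      ∀ i, χ ^ x i * ψ ^ y i * (ψ⁻¹) ^ x i = 1)).card : ℝ) ≤ R := by
    exact_mod_cast few_chars R x y hr χ _ (fun ψ hψ => (mem_filter.1 hψ).2)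
  have h7 : 0 ≤ Bd * ((t : ℝ) - 1) ^ k := by positivity
  calc _ ≤ R * (Bd * ((t : ℝ) - 1) ^ k) := mul_le_mul_of_nonneg_right h6 h7
    _ = _ := by ring

/-- the number of unit vectors with a given value of the quotient -/
theorem count_eq (R : ℕ) (x y : Fin k → ℕ)
    (hr : ∀ r : ℕ, r ∣ t - 1 → (∀ i, (r : ℤ) ∣ (y i : ℤ) - x i) → r ≤ R) (w₀ : (ZMod t)ˣ)
    (S : Finset (Fin k → (ZMod t)ˣ)) (hS : ∀ A ∈ S, UU y A * (UU x A)⁻¹ = w₀) :
    ((t : ℝ) - 1) * (S.card : ℝ) ≤ R * ((t : ℝ) - 1) ^ k := by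
  have ht1 : (0 : ℝ) < (t : ℝ) - 1 := by
    have : (2 : ℝ) ≤ t := by exact_mod_cast (Fact.out : t.Prime).two_le
    linarith
  have h1 := key R x y hr 1 (fun w => if w = w₀ then 1 else 0) 1 (by
    intro ψ
    simp only [mul_ite, mul_one, mul_zero]
    rw [sum_ite_eq' univ w₀ (fun v : (ZMod t)ˣ => ψ⁻¹ v), if_pos (mem_univ _)]
    exact norm_mulChar_le _ _)
  have h2 : ∑ A : Fin k → (ZMod t)ˣ, (1 : MulChar (ZMod t) ℂ) (UU x A) *
      (if UU y A * (UU x A)⁻¹ = w₀ then (1 : ℂ) else 0) =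
      ((univ.filter (fun A : Fin k → (ZMod t)ˣ => UU y A * (UU x A)⁻¹ = w₀)).card : ℂ) := by
    simp_rw [MulChar.one_apply_coe, one_mul]
    rw [← sum_filter]
    simp
  rw [h2] at h1
  have h3 : ‖((univ.filter (fun A : Fin k → (ZMod t)ˣ => UU y A * (UU x A)⁻¹ = w₀)).card : ℂ)‖ =
      ((univ.filter (fun A : Fin k → (ZMod t)ˣ => UU y A * (UU x A)⁻¹ = w₀)).card : ℝ) := by
    simp
  rw [h3] at h1
  have h4 : (S.card : ℝ) ≤
      ((univ.filter (fun A : Fin k → (ZMod t)ˣ => UU y A * (UU x A)⁻¹ = w₀)).card : ℝ) := by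
    exact_mod_cast card_le_card fun A hA => mem_filter.2 ⟨mem_univ _, hS A hA⟩
  nlinarith [mul_le_mul_of_nonneg_left h4 ht1.le]

/-- the sum of a nontrivial character over the values -/
theorem char_sum_le (R : ℕ) (x y : Fin k → ℕ)
    (hr : ∀ r : ℕ, r ∣ t - 1 → (∀ i, (r : ℤ) ∣ (y i : ℤ) - x i) → r ≤ R)
    (χ : MulChar (ZMod t) ℂ) (hχ : χ ≠ 1) (α β : (ZMod t)ˣ) :
    ((t : ℝ) - 1) * ‖∑ A : Fin k → (ZMod t)ˣ, χ (α * (UU x A : ZMod t) + β * (UU y A : ZMod t))‖ ≤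
      R * Real.sqrt t * ((t : ℝ) - 1) ^ k := by
  have h1 := key R x y hr χ (fun w => χ ((α : ZMod t) + (β : ZMod t) * (w : ZMod t))) (Real.sqrt t) (by
    intro ψ
    have h2 : ∑ v : (ZMod t)ˣ, ψ⁻¹ v * χ ((α : ZMod t) + (β : ZMod t) * (v : ZMod t)) =
        ψ⁻¹ ((-(α * β⁻¹) : (ZMod t)ˣ) : ZMod t) * χ (α : ZMod t) * jacobiSum ψ⁻¹ χ := by
      have h3 : jacobiSum ψ⁻¹ χ = ∑ v : (ZMod t)ˣ, ψ⁻¹ ((v : ZMod t)) * χ (1 - (v : ZMod t)) := by
        unfold jacobiSum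
        have h4 : ∀ a : ZMod t, a ∉ Set.range (Units.val : (ZMod t)ˣ → ZMod t) →
            ψ⁻¹ a * χ (1 - a) = 0 := by
          intro a ha
          rw [MulChar.map_nonunit _ (fun h => ha ⟨h.unit, rfl⟩), zero_mul]
        exact (Fintype.sum_of_injective Units.val Units.val_injective _ _
          (fun a ha => h4 a ha) (fun _ => rfl)).symm
      rw [h3, mul_sum]
      refine Fintype.sum_equiv (Equiv.mulLeft (-(α⁻¹ * β))) _ _ (fun v => ?_)
      change ψ⁻¹ (v : ZMod t) * χ ((α : ZMod t) + (β : ZMod t) * (v : ZMod t)) =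
        ψ⁻¹ ((-(α * β⁻¹) : (ZMod t)ˣ) : ZMod t) * χ (α : ZMod t) *
          (ψ⁻¹ ((-(α⁻¹ * β) * v : (ZMod t)ˣ) : ZMod t) *
          χ (1 - ((-(α⁻¹ * β) * v : (ZMod t)ˣ) : ZMod t)))
      have h6 : -(α * β⁻¹) * (-(α⁻¹ * β) * v) = v := by
        rw [← mul_assoc, neg_mul_neg, mul_mul_mul_comm, mul_inv_cancel, inv_mul_cancel, one_mul, one_mul]
      have h7 : (α : ZMod t) + (β : ZMod t) * (v : ZMod t) =
          (α : ZMod t) * (1 - ((-(α⁻¹ * β) * v : (ZMod t)ˣ) : ZMod t)) := by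
        have h8 : (α : ZMod t) * ((α⁻¹ : (ZMod t)ˣ) : ZMod t) = 1 := by
          rw [← Units.val_mul, mul_inv_cancel, Units.val_one]
        rw [neg_mul, Units.val_neg, Units.val_mul, Units.val_mul, sub_neg_eq_add, mul_add, mul_one,
          ← mul_assoc, ← mul_assoc, h8, one_mul]
      rw [h7, map_mul]
      have h9 : ψ⁻¹ (v : ZMod t) = ψ⁻¹ ((-(α * β⁻¹) : (ZMod t)ˣ) : ZMod t) *
          ψ⁻¹ ((-(α⁻¹ * β) * v : (ZMod t)ˣ) : ZMod t) := by
        rw [← map_mul, ← Units.val_mul, h6]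
      rw [h9]
      ring
    rw [h2, norm_mul, norm_mul, norm_mulChar, norm_mulChar, one_mul, one_mul]
    exact norm_jacobi_le χ ψ⁻¹ hχ)
  refine le_trans (le_of_eq ?_) h1
  congr 2
  refine sum_congr rfl fun A _ => ?_
  rw [← map_mul]
  congr 1
  rw [mul_add, Units.val_mul]
  have h8 : (UU x A : ZMod t) * (((UU x A)⁻¹ : (ZMod t)ˣ) : ZMod t) = 1 := by
    rw [← Units.val_mul, mul_inv_cancel, Units.val_one]
  calc (α : ZMod t) * (UU x A : ZMod t) + β * (UU y A : ZMod t) =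
      (UU x A : ZMod t) * α + β * (UU y A : ZMod t) * ((UU x A : ZMod t) *
        (((UU x A)⁻¹ : (ZMod t)ˣ) : ZMod t)) := by rw [h8]; ring
    _ = _ := by ring

end


open Classical in
/-- **The local count.** -/
theorem locR (R k q t : ℕ) [Fact t.Prime] (hq : q.Prime) (hqt : q ∣ t - 1)
    (hkt : 16 * (k + R + 1) ^ 2 ≤ t) (x y : Fin k → ℕ) (α β c : ZMod t) (hα : α ≠ 0) (hβ : β ≠ 0)
    (hr : ∀ r : ℕ, r ∣ t - 1 → (∀ i, (r : ℤ) ∣ (y i : ℤ) - x i) → r ≤ R) :
    (((univ : Finset (Fin k → ZMod t)).filter (fun A => (∃ i, A i = 0) ∨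
      ∃ z, α * ∏ i, A i ^ x i + β * ∏ i, A i ^ y i = c * z ^ q)).card : ℝ) ≤ 3 / 4 * (t : ℝ) ^ k := by
  have htp : t.Prime := Fact.out
  rcases k with _ | k
  · exfalso
    have h1 := hr (t - 1) dvd_rfl (fun i => i.elim0)
    have h2 : 16 * (0 + R + 1) ^ 2 ≤ R + 1 := by omega
    have h3 : R + 1 ≤ (0 + R + 1) ^ 2 := by nlinarith
    omega
  have ht : (16 : ℝ) * ((k : ℝ) + 1 + R + 1) ^ 2 ≤ t := by exact_mod_cast hkt
  have ht0 : (0 : ℝ) < t := by exact_mod_cast htp.pos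
  have hR0 : (0 : ℝ) ≤ R := Nat.cast_nonneg R
  have hk0 : (0 : ℝ) ≤ k := Nat.cast_nonneg k
  have hsq : 4 * ((k : ℝ) + 1 + R + 1) ≤ Real.sqrt t := by
    rw [Real.le_sqrt (by positivity) ht0.le]
    nlinarith
  have hsq2 : Real.sqrt t * Real.sqrt t = t := Real.mul_self_sqrt ht0.le
  have ht1 : (0 : ℝ) < (t : ℝ) - 1 := by
    have : (2 : ℝ) ≤ t := by exact_mod_cast htp.two_le
    linarith
  obtain ⟨al, rfl⟩ : ∃ al : (ZMod t)ˣ, (al : ZMod t) = α := ⟨Units.mk0 α hα, rfl⟩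
  obtain ⟨be, rfl⟩ : ∃ be : (ZMod t)ˣ, (be : ZMod t) = β := ⟨Units.mk0 β hβ, rfl⟩
  -- the three sets
  set Z0 : Finset (Fin (k + 1) → ZMod t) := univ.filter (fun A => ∃ i, A i = 0) with hZ0
  set S1 : Finset (Fin (k + 1) → (ZMod t)ˣ) :=
    univ.filter (fun A => al * (UU x A : ZMod t) + be * (UU y A : ZMod t) = 0) with hS1
  set S2 : Finset (Fin (k + 1) → (ZMod t)ˣ) :=
    univ.filter (fun A => c ≠ 0 ∧ ∃ z, z ≠ 0 ∧
      al * (UU x A : ZMod t) + be * (UU y A : ZMod t) = c * z ^ q) with hS2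
  have hcard : (univ.filter (fun A : Fin (k + 1) → ZMod t => (∃ i, A i = 0) ∨
      ∃ z, al * ∏ i, A i ^ x i + be * ∏ i, A i ^ y i = c * z ^ q)).card ≤
      Z0.card + (S1.card + S2.card) := by
    have hsub : (univ.filter (fun A : Fin (k + 1) → ZMod t => (∃ i, A i = 0) ∨
      ∃ z, al * ∏ i, A i ^ x i + be * ∏ i, A i ^ y i = c * z ^ q)) ⊆
      Z0 ∪ (S1 ∪ S2).image (fun A i => (A i : ZMod t)) := by
      intro A hA
      rw [mem_filter] at hA
      rw [mem_union]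
      by_cases h0 : ∃ i, A i = 0
      · left
        rw [hZ0, mem_filter]
        exact ⟨mem_univ _, h0⟩
      · right
        rcases hA.2 with h | ⟨z, hz⟩
        · exact absurd h h0
        push Not at h0
        rw [mem_image]
        refine ⟨fun i => Units.mk0 (A i) (h0 i), ?_, by ext i; simp⟩
        have e : ∀ w : Fin (k + 1) → ℕ,
            ((UU w (fun i => Units.mk0 (A i) (h0 i)) : (ZMod t)ˣ) : ZMod t) = ∏ i, A i ^ w i := by
          intro w
          unfold UU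
          rw [Units.coe_prod]
          simp
        rw [mem_union, hS1, hS2, mem_filter, mem_filter, e, e]
        by_cases hcz : c * z ^ q = 0
        · left
          exact ⟨mem_univ _, by rw [hz, hcz]⟩
        · right
          refine ⟨mem_univ _, fun h => hcz (by rw [h, zero_mul]), z, fun h => hcz ?_, hz⟩
          rw [h, zero_pow hq.ne_zero, mul_zero]
    refine (card_le_card hsub).trans ((card_union_le _ _).trans ?_)
    exact Nat.add_le_add_left (card_image_le.trans (card_union_le _ _)) _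
  -- vanishing coordinates
  have hZ0c : (Z0.card : ℝ) ≤ ((k : ℝ) + 1) * (t : ℝ) ^ k := by
    have h1 : Z0 ⊆ (univ : Finset (Fin (k + 1))).biUnion
        (fun i => Fintype.piFinset (fun j => if j = i then {(0 : ZMod t)} else univ)) := by
      intro A hA
      rw [hZ0, mem_filter] at hA
      obtain ⟨i, hi⟩ := hA.2
      rw [mem_biUnion]
      refine ⟨i, mem_univ _, ?_⟩
      rw [Fintype.mem_piFinset]
      intro j
      split_ifs with h
      · rw [h, hi]
        exact mem_singleton_self _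
      · exact mem_univ _
    have h2 : ∀ i : Fin (k + 1), (Fintype.piFinset
        (fun j => if j = i then {(0 : ZMod t)} else (univ : Finset (ZMod t)))).card = t ^ k := by
      intro i
      rw [Fintype.card_piFinset]
      have h3 : ∀ j : Fin (k + 1), (if j = i then {(0 : ZMod t)} else (univ : Finset (ZMod t))).card =
          if j = i then 1 else t := by
        intro j
        split_ifs
        · simp
        · rw [card_univ, ZMod.card]
      simp_rw [h3]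
      rw [prod_ite]
      simp [filter_ne']
    have h4 := (card_le_card h1).trans card_biUnion_le
    simp_rw [h2] at h4
    rw [sum_const, card_univ, Fintype.card_fin, smul_eq_mul] at h4
    exact_mod_cast h4
  -- vanishing values
  have hS1c : (S1.card : ℝ) ≤ R * (t : ℝ) ^ k := by
    have h1 := count_eq R x y hr (-(al * be⁻¹)) S1 (by
      intro A hA
      rw [hS1, mem_filter] at hA
      have h2 := hA.2
      rw [mul_inv_eq_iff_eq_mul]
      ext
      rw [Units.val_mul, Units.val_neg, Units.val_mul]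
      have h3 : (be : ZMod t) * ((be⁻¹ : (ZMod t)ˣ) : ZMod t) = 1 := by
        rw [← Units.val_mul, mul_inv_cancel, Units.val_one]
      calc (UU y A : ZMod t) = (be * ((be⁻¹ : (ZMod t)ˣ) : ZMod t)) * UU y A := by rw [h3, one_mul]
        _ = ((be⁻¹ : (ZMod t)ˣ) : ZMod t) * (al * UU x A + be * UU y A) -
            al * ((be⁻¹ : (ZMod t)ˣ) : ZMod t) * UU x A := by ring
        _ = _ := by rw [h2]; ring)
    have h2 : ((t : ℝ) - 1) * (S1.card : ℝ) ≤ ((t : ℝ) - 1) * (R * ((t : ℝ) - 1) ^ k) := by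
      refine h1.trans (le_of_eq ?_)
      ring
    have h3 := le_of_mul_le_mul_left h2 ht1
    have h4 : ((t : ℝ) - 1) ^ k ≤ (t : ℝ) ^ k := pow_le_pow_left₀ ht1.le (by linarith) k
    exact h3.trans (mul_le_mul_of_nonneg_left h4 hR0)
  -- the main set
  have hS2c : (S2.card : ℝ) ≤ (t : ℝ) ^ (k + 1) / 2 + R / 2 * Real.sqrt t * (t : ℝ) ^ k := by
    by_cases hc : c = 0
    · have : S2 = ∅ := by
        rw [hS2]
        apply filter_false_of_mem
        intro A _ h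
        exact h.1 hc
      rw [this, card_empty, Nat.cast_zero]
      positivity
    obtain ⟨χ, hχ⟩ := MulChar.exists_mulChar_orderOf (ZMod t) (R := ℂ) (n := q)
      (by rwa [ZMod.card]) (Complex.isPrimitiveRoot_exp q hq.ne_zero)
    have hχ1 : χ ≠ 1 := by
      intro h
      rw [h, orderOf_one] at hχ
      exact hq.one_lt.ne hχ
    have hχq : χ ^ q = 1 := by rw [← hχ]; exact pow_orderOf_eq_one χ
    have h1 := char_sum_le R x y hr χ hχ1 al be
    set SS := ∑ A : Fin (k + 1) → (ZMod t)ˣ, χ (al * (UU x A : ZMod t) + be * (UU y A : ZMod t)) with hSS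
    have h2 : ‖SS‖ ≤ R * Real.sqrt t * (t : ℝ) ^ k := by
      have h3 : ((t : ℝ) - 1) * ‖SS‖ ≤ ((t : ℝ) - 1) * (R * Real.sqrt t * ((t : ℝ) - 1) ^ k) := by
        refine h1.trans (le_of_eq ?_)
        ring
      have h4 := le_of_mul_le_mul_left h3 ht1
      have h5 : ((t : ℝ) - 1) ^ k ≤ (t : ℝ) ^ k := pow_le_pow_left₀ ht1.le (by linarith) k
      refine h4.trans (mul_le_mul_of_nonneg_left h5 (by positivity))
    have hcu : ‖χ c‖ = 1 := by
      have := norm_mulChar χ (Units.mk0 c hc)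
      simpa using this
    have h3 : ((starRingEnd ℂ) (χ c) * SS).re ≤ ‖SS‖ := by
      refine (Complex.re_le_norm _).trans ?_
      rw [norm_mul, RCLike.norm_conj, hcu, one_mul]
    have h4 : (S2.card : ℝ) * 2 - ((t : ℝ) - 1) ^ (k + 1) ≤ ((starRingEnd ℂ) (χ c) * SS).re := by
      rw [hSS, mul_sum, Complex.re_sum]
      have h5 : ∀ A : Fin (k + 1) → (ZMod t)ˣ, (if A ∈ S2 then (2 : ℝ) else 0) - 1 ≤
          ((starRingEnd ℂ) (χ c) * χ (al * (UU x A : ZMod t) + be * (UU y A : ZMod t))).re := by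
        intro A
        split_ifs with hA
        · rw [hS2, mem_filter] at hA
          obtain ⟨_, _, z, hz, hA⟩ := hA
          have h6 : χ (z ^ q) = 1 := by
            have h7 := MulChar.pow_apply' χ hq.ne_zero z
            rw [map_pow, ← h7, hχq]
            exact MulChar.one_apply (isUnit_iff_ne_zero.2 hz)
          rw [hA, map_mul, h6, mul_one, ← Complex.normSq_eq_conj_mul_self, Complex.ofReal_re,
            Complex.normSq_eq_norm_sq, hcu]
          norm_num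
        · have h6 : ‖(starRingEnd ℂ) (χ c) * χ (al * (UU x A : ZMod t) + be * (UU y A : ZMod t))‖ ≤ 1 := by
            rw [norm_mul, RCLike.norm_conj, hcu, one_mul]
            exact norm_mulChar_le _ _
          have h7 := (abs_le.1 ((Complex.abs_re_le_norm _).trans h6)).1
          linarith
      refine le_trans (le_of_eq ?_) (sum_le_sum fun A _ => h5 A)
      rw [sum_sub_distrib, sum_const, card_univ, Fintype.card_fun, Fintype.card_fin,
        ZMod.card_units_eq_totient, Nat.totient_prime htp, ← sum_filter, sum_const, nsmul_eq_mul,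
        nsmul_eq_mul, mul_one]
      have h8 : univ.filter (fun A => A ∈ S2) = S2 := by
        ext A
        simp
      rw [h8, Nat.cast_pow, Nat.cast_sub htp.one_le, Nat.cast_one]
    have h5 : ((t : ℝ) - 1) ^ (k + 1) ≤ (t : ℝ) ^ (k + 1) :=
      pow_le_pow_left₀ ht1.le (by linarith) (k + 1)
    linarith
  have htk : (0 : ℝ) < (t : ℝ) ^ k := by positivity
  have hfin : (((univ.filter (fun A : Fin (k + 1) → ZMod t => (∃ i, A i = 0) ∨
      ∃ z, al * ∏ i, A i ^ x i + be * ∏ i, A i ^ y i = c * z ^ q)).card : ℕ) : ℝ) ≤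
      (Z0.card : ℝ) + ((S1.card : ℝ) + (S2.card : ℝ)) := by exact_mod_cast hcard
  have h6 : (k : ℝ) + 1 + R + R / 2 * Real.sqrt t ≤ t / 4 := by
    have h8 : 8 ≤ Real.sqrt t := by linarith
    have h9 : (4 * ((k : ℝ) + 1 + R + 1)) * Real.sqrt t ≤ t := by
      have h7 := mul_le_mul_of_nonneg_right hsq (Real.sqrt_nonneg (t : ℝ))
      rwa [hsq2] at h7
    nlinarith [mul_nonneg hk0 (sub_nonneg.2 h8), mul_nonneg hR0 (sub_nonneg.2 h8)]
  calc _ ≤ (Z0.card : ℝ) + ((S1.card : ℝ) + (S2.card : ℝ)) := hfin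
    _ ≤ ((k : ℝ) + 1) * (t : ℝ) ^ k + (R * (t : ℝ) ^ k +
        ((t : ℝ) ^ (k + 1) / 2 + R / 2 * Real.sqrt t * (t : ℝ) ^ k)) := by linarith
    _ = ((k : ℝ) + 1 + R + R / 2 * Real.sqrt t) * (t : ℝ) ^ k + (t : ℝ) ^ (k + 1) / 2 := by ring
    _ ≤ (t / 4) * (t : ℝ) ^ k + (t : ℝ) ^ (k + 1) / 2 := by
      have := mul_le_mul_of_nonneg_right h6 htk.le
      linarith
    _ = _ := by ring

end Pool.Agent.Y353.SU
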