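import Mathlib
import Pool.Agent.Y353.SU.Loc
import Pool.Agent.TH194.BL.Fin1

/-!
Project SU (helper353): relations with smooth coefficients, the covering of the exceptional set.
-/

set_option autoImplicit false

namespace Pool.Agent.Y353.SU

open Finset
open Pool.Agent.TH194.BL (Cube S_LSK pow_mod_lam)

/-- `a` is not zero and its prime factors are at most `Y` -/
def Smo (Y : ℝ) (a : ℤ) : Prop := a ≠ 0 ∧ ∀ p : ℕ, p.Prime → (p : ℤ) ∣ a → (p : ℝ) ≤ Y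

/-- The tuples `A` of positive integers with a relation `a ∏ A_i ^ x_i + b ∏ A_i ^ y_i = c w ^ n`, where `a`, `b`
have no prime factors larger than `Y₁`, `c` has no prime factors larger than `Y₂`, and no number larger than `G`
divides all the `y_i - x_i`. -/
def RelS (k n : ℕ) (Y₁ Y₂ : ℝ) (G : ℕ) : Set (Fin k → ℕ) :=
  {A | (∀ i, 0 < A i) ∧ ∃ (x y : Fin k → ℕ) (a b c w : ℤ), Smo Y₁ a ∧ Smo Y₁ b ∧ Smo Y₂ c ∧
    (∀ r : ℕ, (∀ i, (r : ℤ) ∣ (y i : ℤ) - x i) → r ≤ G) ∧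
    a * ∏ i, (A i : ℤ) ^ x i + b * ∏ i, (A i : ℤ) ^ y i = c * w ^ n}

theorem RelS_mono_exp {k n q : ℕ} {Y₁ Y₂ : ℝ} {G : ℕ} (hq : q ∣ n) : RelS k n Y₁ Y₂ G ⊆ RelS k q Y₁ Y₂ G := by
  rintro A ⟨hA, x, y, a, b, c, w, h1, h2, h3, h4, h5⟩
  obtain ⟨m, rfl⟩ := hq
  refine ⟨hA, x, y, a, b, c, w ^ m, h1, h2, h3, h4, ?_⟩
  rw [← pow_mul, mul_comm m q]
  exact h5

open Classical in
/-- the local sets -/
noncomputable def OmG (k q : ℕ) (x y : Fin k → ℕ) (a b c : ℤ) (t : ℕ) :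
    Finset (Fin k → ZMod t) :=
  if h : t.Prime then
    haveI : Fact t.Prime := ⟨h⟩
    (univ : Finset (Fin k → ZMod t)).filter (fun A => (∃ i, A i = 0) ∨
      ∃ z, (a : ZMod t) * ∏ i, A i ^ x i + (b : ZMod t) * ∏ i, A i ^ y i = (c : ZMod t) * z ^ q)
  else ∅

theorem mem_OmG {k q : ℕ} {x y : Fin k → ℕ} {a b c : ℤ} {t : ℕ} (ht : t.Prime)
    (A : Fin k → ZMod t) (h : (∃ i, A i = 0) ∨
      ∃ z, (a : ZMod t) * ∏ i, A i ^ x i + (b : ZMod t) * ∏ i, A i ^ y i = (c : ZMod t) * z ^ q) :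
    A ∈ OmG k q x y a b c t := by
  classical
  unfold OmG
  rw [dif_pos ht]
  have : Fact t.Prime := ⟨ht⟩
  rw [mem_filter]
  exact ⟨mem_univ _, h⟩

theorem card_OmG {k q R : ℕ} (hq : q.Prime) {x y : Fin k → ℕ} {a b c : ℤ} {t : ℕ}
    (ht : t.Prime) (hqt : q ∣ t - 1) (htk : 16 * (k + R + 1) ^ 2 ≤ t) (ha : (a : ZMod t) ≠ 0)
    (hb : (b : ZMod t) ≠ 0)
    (hr : ∀ r : ℕ, r ∣ t - 1 → (∀ i, (r : ℤ) ∣ (y i : ℤ) - x i) → r ≤ R) :
    ((OmG k q x y a b c t).card : ℝ) ≤ 3 / 4 * (t : ℝ) ^ k := by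
  classical
  have : Fact t.Prime := ⟨ht⟩
  have h := locR R k q t hq hqt htk x y (a : ZMod t) (b : ZMod t) (c : ZMod t) ha hb hr
  refine le_trans (le_of_eq ?_) h
  unfold OmG
  rw [dif_pos ht]

/-- the sign -/
def sgn (b : Bool) : ℤ := if b then 1 else -1

/-- the coefficient with given sign and exponents -/
def co {S : Finset ℕ} {m : ℕ} (s : Bool) (e : S → Fin m) : ℤ := sgn s * ∏ p : S, ((p : ℕ) : ℤ) ^ (e p : ℕ)

/-- the sign of a number and its factorization -/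
theorem exists_sgn {a : ℤ} (ha : a ≠ 0) {S : Finset ℕ} (hS : ∀ p : ℕ, p.Prime → (p : ℤ) ∣ a → p ∈ S) :
    ∃ s : Bool, a = sgn s * ∏ p : S, ((p : ℕ) : ℤ) ^ (a.natAbs.factorization p) := by
  have h1 : (a.natAbs : ℤ) = ∏ p : S, ((p : ℕ) : ℤ) ^ (a.natAbs.factorization p) := by
    rw [Finset.prod_coe_sort S (fun p => ((p : ℕ) : ℤ) ^ a.natAbs.factorization p)]
    conv_lhs => rw [← Nat.prod_factorization_pow_eq_self (Int.natAbs_ne_zero.2 ha)]
    rw [Finsupp.prod]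
    push_cast
    apply Finset.prod_subset
    · intro p hp
      rw [Nat.support_factorization, Nat.mem_primeFactors] at hp
      exact hS p hp.1 (Int.natCast_dvd.2 hp.2.1)
    · intro p _ hp
      rw [Finsupp.notMem_support_iff] at hp
      rw [hp, pow_zero]
  rcases le_total 0 a with h | h
  · refine ⟨true, ?_⟩
    rw [← h1, sgn, if_pos rfl, one_mul, Int.natAbs_of_nonneg h]
  · refine ⟨false, ?_⟩
    rw [← h1, sgn]
    simp only [Bool.false_eq_true, if_false]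
    have := Int.ofNat_natAbs_of_nonpos h
    rw [this]
    ring

theorem co_mod {S : Finset ℕ} {lam t : ℕ} (ht : t.Prime) (htl : t - 1 ∣ lam) (hlam : 0 < lam)
    (hSt : ∀ p ∈ S, ((p : ℕ) : ZMod t) ≠ 0) (s : Bool) (e : S → ℕ) :
    ((co s (fun p => (⟨e p % lam, Nat.mod_lt _ hlam⟩ : Fin lam)) : ℤ) : ZMod t) =
      ((sgn s * ∏ p : S, ((p : ℕ) : ℤ) ^ e p : ℤ) : ZMod t) := by
  have : Fact t.Prime := ⟨ht⟩
  unfold co
  push_cast
  congr 1
  apply prod_congr rfl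
  intro p _
  exact pow_mod_lam htl (hSt p p.2) (e p)

theorem co_ne {S : Finset ℕ} {m t : ℕ} (ht : t.Prime) (hSt : ∀ p ∈ S, ((p : ℕ) : ZMod t) ≠ 0) (s : Bool)
    (e : S → Fin m) : ((co s e : ℤ) : ZMod t) ≠ 0 := by
  have : Fact t.Prime := ⟨ht⟩
  unfold co
  push_cast
  apply mul_ne_zero
  · unfold sgn
    split_ifs <;> simp
  · rw [Finset.prod_ne_zero_iff]
    intro p _
    exact pow_ne_zero _ (hSt p p.2)

open Classical in
/-- the sets to which the large sieve is applied -/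
noncomputable def ZG (k q : ℕ) (a₀ : Fin k → ℕ) (N : ℕ) (P : Finset ℕ) (x y : Fin k → ℕ) (a b c : ℤ) :
    Finset (Fin k → ℕ) :=
  (Cube a₀ N).filter (fun A => ∀ t ∈ P, (fun i => ((A i : ℕ) : ZMod t)) ∈ OmG k q x y a b c t)

theorem card_ZG (hlsk : S_LSK) {k q R : ℕ} (hq : q.Prime) {x y : Fin k → ℕ} {a b c : ℤ}
    {N Q j : ℕ} (a₀ : Fin k → ℕ) {P : Finset ℕ}
    (hN : 1 ≤ N) (hQ : Q ^ 2 ≤ N) (hP : ∀ t ∈ P, t.Prime)
    (hPq : ∀ t ∈ P, q ∣ t - 1)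
    (hPk : ∀ t ∈ P, 16 * (k + R + 1) ^ 2 ≤ t) (ha : ∀ t ∈ P, (a : ZMod t) ≠ 0)
    (hb : ∀ t ∈ P, (b : ZMod t) ≠ 0)
    (hr : ∀ t ∈ P, ∀ r : ℕ, r ∣ t - 1 → (∀ i, (r : ℤ) ∣ (y i : ℤ) - x i) → r ≤ R)
    (hj : ∀ D ∈ P.powersetCard j, ∏ t ∈ D, t ≤ Q) :
    ((ZG k q a₀ N P x y a b c).card : ℝ) * ((P.card.choose j : ℝ) / 3 ^ j) ≤ (12 * (N : ℝ)) ^ k := by
  classical
  refine hlsk k N Q j a₀ P (ZG k q a₀ N P x y a b c) (OmG k q x y a b c) hN hQ hP ?_ ?_ ?_ hj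
  · intro z hz i
    unfold ZG at hz
    rw [mem_filter, Cube, Fintype.mem_piFinset] at hz
    exact hz.1 i
  · intro t ht
    exact card_OmG hq (hP t ht) (hPq t ht) (hPk t ht) (ha t ht) (hb t ht) (hr t ht)
  · intro z hz t ht
    unfold ZG at hz
    rw [mem_filter] at hz
    exact hz.2 t ht

open Classical in
/-- **Covering.** -/
theorem card_rel_le (hlsk : S_LSK) {k q G : ℕ} (hq : q.Prime)
    {lam N Q j : ℕ} (a₀ : Fin k → ℕ) {P S₁ S₂ : Finset ℕ} {Y₁ Y₂ : ℝ}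
    (hN : 1 ≤ N) (hQ : Q ^ 2 ≤ N) (hP : ∀ t ∈ P, t.Prime) (hPl : ∀ t ∈ P, t - 1 ∣ lam)
    (hPq : ∀ t ∈ P, q ∣ t - 1)
    (hPk : ∀ t ∈ P, 16 * (k + G + 1) ^ 2 ≤ t)
    (hj : ∀ D ∈ P.powersetCard j, ∏ t ∈ D, t ≤ Q) (hjP : j ≤ P.card)
    (hlam : 0 < lam) (hS1 : ∀ t ∈ P, ∀ p ∈ S₁, ((p : ℕ) : ZMod t) ≠ 0)
    (hY1 : ∀ p : ℕ, p.Prime → (p : ℝ) ≤ Y₁ → p ∈ S₁)
    (hY2 : ∀ p : ℕ, p.Prime → (p : ℝ) ≤ Y₂ → p ∈ S₂) :
    (((Cube a₀ N).filter (fun A => A ∈ RelS k q Y₁ Y₂ G)).card : ℝ) ≤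
      8 * (lam : ℝ) ^ (2 * k + 2 * S₁.card) * (q : ℝ) ^ S₂.card *
        ((12 * (N : ℝ)) ^ k / ((P.card.choose j : ℝ) / 3 ^ j)) := by
  have : NeZero lam := ⟨hlam.ne'⟩
  have hq0 : 0 < q := hq.pos
  set L : ℝ := (P.card.choose j : ℝ) / 3 ^ j with hL
  have hLpos : 0 < L := by
    have : 0 < P.card.choose j := Nat.choose_pos hjP
    positivity
  set I := ((Fin k → Fin lam) × (Fin k → Fin lam)) × ((S₁ → Fin lam) × (S₁ → Fin lam)) × (S₂ → Fin q) ×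
    Bool × Bool × Bool with hI
  let good : I → Prop := fun i => ∀ t ∈ P, ∀ r : ℕ, r ∣ t - 1 →
    (∀ l, (r : ℤ) ∣ (((i.1.2 l : Fin lam) : ℕ) : ℤ) - (((i.1.1 l : Fin lam) : ℕ) : ℤ)) → r ≤ G
  let ZI : I → Finset (Fin k → ℕ) := fun i =>
    ZG k q a₀ N P (fun l => ((i.1.1 l : Fin lam) : ℕ)) (fun l => ((i.1.2 l : Fin lam) : ℕ))
      (co i.2.2.2.1 i.2.1.1) (co i.2.2.2.2.1 i.2.1.2) (co i.2.2.2.2.2 i.2.2.1)
  have hsub : (Cube a₀ N).filter (fun A => A ∈ RelS k q Y₁ Y₂ G) ⊆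
      ((univ : Finset I).filter good).biUnion ZI := by
    intro A hA
    rw [mem_filter] at hA
    obtain ⟨hAc, hA0, x, y, a, b, c, w, ha, hb, hc, hg, heq⟩ := hA
    obtain ⟨sa, ea⟩ := exists_sgn (S := S₁) ha.1 (fun p hp hpa => hY1 p hp (ha.2 p hp hpa))
    obtain ⟨sb, eb⟩ := exists_sgn (S := S₁) hb.1 (fun p hp hpb => hY1 p hp (hb.2 p hp hpb))
    obtain ⟨sc, ec⟩ := exists_sgn (S := S₂) hc.1 (fun p hp hpc => hY2 p hp (hc.2 p hp hpc))
    rw [mem_biUnion]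
    refine ⟨(((fun l => ⟨x l % lam, Nat.mod_lt _ hlam⟩), (fun l => ⟨y l % lam, Nat.mod_lt _ hlam⟩)),
      ((fun p => ⟨a.natAbs.factorization p % lam, Nat.mod_lt _ hlam⟩),
        (fun p => ⟨b.natAbs.factorization p % lam, Nat.mod_lt _ hlam⟩)),
      (fun p => ⟨c.natAbs.factorization p % q, Nat.mod_lt _ hq0⟩), sa, sb, sc), ?_, ?_⟩
    · rw [mem_filter]
      refine ⟨mem_univ _, ?_⟩
      intro t ht r hr hdiv
      apply hg r
      intro l
      have hl := hdiv l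
      simp only at hl
      have e1 : ((y l % lam : ℕ) : ℤ) - ((x l % lam : ℕ) : ℤ) =
          ((y l : ℤ) - x l) - (lam : ℤ) * ((y l / lam : ℕ) - (x l / lam : ℕ)) := by
        have h1 := Nat.mod_add_div (y l) lam
        have h2 := Nat.mod_add_div (x l) lam
        have h1' : ((y l % lam : ℕ) : ℤ) + (lam : ℤ) * ((y l / lam : ℕ) : ℤ) = (y l : ℤ) := by
          exact_mod_cast h1
        have h2' : ((x l % lam : ℕ) : ℤ) + (lam : ℤ) * ((x l / lam : ℕ) : ℤ) = (x l : ℤ) := by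
          exact_mod_cast h2
        linarith
      have hl' : (r : ℤ) ∣ ((y l % lam : ℕ) : ℤ) - ((x l % lam : ℕ) : ℤ) := hl
      rw [e1] at hl'
      have e2 : (r : ℤ) ∣ (lam : ℤ) * ((y l / lam : ℕ) - (x l / lam : ℕ)) :=
        Dvd.dvd.mul_right (Int.natCast_dvd_natCast.mpr (hr.trans (hPl t ht))) _
      exact (dvd_sub_left e2).mp hl'
    · show A ∈ ZG k q a₀ N P (fun l => x l % lam) (fun l => y l % lam)
        (co sa (fun p : S₁ => (⟨a.natAbs.factorization p % lam, Nat.mod_lt _ hlam⟩ : Fin lam)))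
        (co sb (fun p : S₁ => (⟨b.natAbs.factorization p % lam, Nat.mod_lt _ hlam⟩ : Fin lam)))
        (co sc (fun p : S₂ => (⟨c.natAbs.factorization p % q, Nat.mod_lt _ hq0⟩ : Fin q)))
      unfold ZG
      rw [mem_filter]
      refine ⟨hAc, fun t ht => ?_⟩
      have htp := hP t ht
      have : Fact t.Prime := ⟨htp⟩
      apply mem_OmG htp
      by_cases h0 : ∃ i, ((A i : ℕ) : ZMod t) = 0
      · left; exact h0
      · right
        push Not at h0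
        refine ⟨((∏ p : S₂, ((p : ℕ) : ZMod t) ^ (c.natAbs.factorization p / q)) * (w : ZMod t)), ?_⟩
        rw [co_mod htp (hPl t ht) hlam (hS1 t ht), co_mod htp (hPl t ht) hlam (hS1 t ht), ← ea, ← eb]
        have e1 : ∀ z : Fin k → ℕ, ∏ i, ((A i : ℕ) : ZMod t) ^ (z i % lam) =
            ((∏ i, (A i : ℤ) ^ z i : ℤ) : ZMod t) := by
          intro z
          rw [Int.cast_prod]
          apply Finset.prod_congr rfl
          intro i _
          rw [pow_mod_lam (hPl t ht) (h0 i), Int.cast_pow, Int.cast_natCast]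
        rw [e1, e1]
        have h5 := congrArg (fun z : ℤ => (z : ZMod t)) heq
        simp only [Int.cast_add, Int.cast_mul, Int.cast_pow] at h5
        rw [h5]
        have h6 : (c : ZMod t) = ((co sc (fun p : S₂ =>
            (⟨c.natAbs.factorization p % q, Nat.mod_lt _ hq0⟩ : Fin q)) : ℤ) : ZMod t) *
            (∏ p : S₂, ((p : ℕ) : ZMod t) ^ (c.natAbs.factorization p / q)) ^ q := by
          conv_lhs => rw [ec]
          unfold co
          push_cast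
          rw [mul_assoc, ← Finset.prod_pow, ← Finset.prod_mul_distrib]
          congr 1
          apply Finset.prod_congr rfl
          intro p _
          rw [← pow_mul, ← pow_add]
          congr 1
          exact (Nat.mod_add_div' _ _).symm
        rw [h6, mul_pow]
        ring
  have hZ : ∀ i ∈ (univ : Finset I).filter good, ((ZI i).card : ℝ) ≤ (12 * (N : ℝ)) ^ k / L := by
    intro i hi
    rw [mem_filter] at hi
    rw [le_div_iff₀ hLpos]
    exact card_ZG hlsk hq a₀ hN hQ hP hPq hPk (fun t ht => co_ne (hP t ht) (hS1 t ht) _ _)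
      (fun t ht => co_ne (hP t ht) (hS1 t ht) _ _) hi.2 hj
  have hcard : (Fintype.card I : ℝ) = 8 * (lam : ℝ) ^ (2 * k + 2 * S₁.card) * (q : ℝ) ^ S₂.card := by
    simp only [hI, Fintype.card_prod, Fintype.card_fun, Fintype.card_fin, Fintype.card_coe,
      Fintype.card_bool]
    push_cast
    ring
  calc (((Cube a₀ N).filter (fun A => A ∈ RelS k q Y₁ Y₂ G)).card : ℝ)
      ≤ ((((univ : Finset I).filter good).biUnion ZI).card : ℝ) := by
        exact_mod_cast card_le_card hsub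
    _ ≤ ∑ i ∈ (univ : Finset I).filter good, ((ZI i).card : ℝ) := by
        exact_mod_cast card_biUnion_le
    _ ≤ ∑ i ∈ (univ : Finset I).filter good, (12 * (N : ℝ)) ^ k / L := sum_le_sum hZ
    _ = (((univ : Finset I).filter good).card : ℝ) * ((12 * (N : ℝ)) ^ k / L) := by
        rw [sum_const, nsmul_eq_mul]
    _ ≤ (Fintype.card I : ℝ) * ((12 * (N : ℝ)) ^ k / L) := by
        apply mul_le_mul_of_nonneg_right _ (by positivity)
        exact_mod_cast card_le_univ _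
    _ = _ := by rw [hcard]

end Pool.Agent.Y353.SU
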